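import Pool.Agent.H19.HopfMore

/-!
# The Hopf-lemma variant for curvature functions with smooth reflected gluing is false

Points of `ℝ^n`, `n = k + 1`, are written `(t, y)` with `t : ℝ` and `y` in Euclidean `ℝ^k`.
For every `n ≥ 2` and every `1 ≤ m ≤ n` there is a pair `(u, v)` which satisfies all the hypotheses,
but near the origin neither `u = v` nor `v = 0`.

* `n ≥ 3`: `v (t, y) = ‖y‖ ^ 2`, `u (t, y) = ‖y‖ ^ 2 + exp (- 1 / t)`; here `u (t, y) = v (s, y)` only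
  for `t = 0`.
* `n = 2`: with `e (x) = exp (- 1 / x)` for `x > 0` and `e (x) = 0` for `x ≤ 0`,
  `u (t, y) = y² + t e (y² - t²) + e (y²)^50 e (t² - y²) + 200 e (2 t)` and
  `v (t, y) = y² - t e (y² - t²) + e (y²)^50 e (t² - y²)`; here the comparison condition is really
  tested: in every neighbourhood of the origin there are points `(t, y)`, `(s, y)` of `Ω` with
  `u (t, y) = v (s, y)`.
-/

open scoped ContDiff Topology RealInnerProductSpace

namespace Pool.Agent.Results.MP_4ba699_an.HopfVariantFails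

/-- The space `ℝ × ℝ^k = ℝ^(k+1)` of points `(t, y)`. -/
abbrev Pt (k : ℕ) : Type := ℝ × EuclideanSpace ℝ (Fin k)

/-- The coordinate vectors of `ℝ × ℝ^k`: index `0` is the `t`-direction, the others are the
`y`-directions. -/
noncomputable def coordVec (k : ℕ) : Fin (k + 1) → Pt k :=
  Fin.cons (1, 0) (fun i => (0, EuclideanSpace.single i 1))

/-- The gradient of `f` in coordinates. -/
noncomputable def gradVec {k : ℕ} (f : Pt k → ℝ) (p : Pt k) : Fin (k + 1) → ℝ :=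
  fun i => fderiv ℝ f p (coordVec k i)

/-- The Hessian matrix of `f` in coordinates. -/
noncomputable def hessMat {k : ℕ} (f : Pt k → ℝ) (p : Pt k) :
    Matrix (Fin (k + 1)) (Fin (k + 1)) ℝ :=
  Matrix.of fun i j => fderiv ℝ (fun q => fderiv ℝ f q (coordVec k j)) p (coordVec k i)

/-- First fundamental form `I + ∇f ∇fᵀ` of the graph of `f`, in graph coordinates. -/
noncomputable def firstForm {k : ℕ} (f : Pt k → ℝ) (p : Pt k) :
    Matrix (Fin (k + 1)) (Fin (k + 1)) ℝ :=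
  1 + Matrix.vecMulVec (gradVec f p) (gradVec f p)

/-- Second fundamental form `D²f / √(1 + |∇f|²)` of the graph of `f` with respect to the upward
unit normal, in graph coordinates. -/
noncomputable def secondForm {k : ℕ} (f : Pt k → ℝ) (p : Pt k) :
    Matrix (Fin (k + 1)) (Fin (k + 1)) ℝ :=
  (Real.sqrt (1 + gradVec f p ⬝ᵥ gradVec f p))⁻¹ • hessMat f p

/-- The principal curvatures of the graph of `f` over `p` with respect to the upward unit normal
(with multiplicity): the eigenvalues of the shape operator `I⁻¹ II`. -/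
noncomputable def principalCurvatures {k : ℕ} (f : Pt k → ℝ) (p : Pt k) : Multiset ℝ :=
  ((firstForm f p)⁻¹ * secondForm f p).charpoly.roots

/-- `σ_m` of the principal curvatures of the graph of `f` over `p`. -/
noncomputable def sigmaCurv {k : ℕ} (m : ℕ) (f : Pt k → ℝ) (p : Pt k) : ℝ :=
  (principalCurvatures f p).esymm m

/-- `Ω = {(t, y) : |y| < 1, 0 < t < 1}`. -/
def Omega (k : ℕ) : Set (Pt k) := {p | ‖p.2‖ < 1 ∧ 0 < p.1 ∧ p.1 < 1}

/-- The glued function `w (t, y) = v (t, y)` for `t ≥ 0` and `w (t, y) = u (-t, y)` for `t < 0`. -/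
noncomputable def glue {k : ℕ} (u v : Pt k → ℝ) : Pt k → ℝ :=
  fun p => if 0 ≤ p.1 then v p else u (-p.1, p.2)

/-- All the hypotheses of the question on the pair `(u, v)`, for `n = k + 1` and `σ_m`.
The functions are given on all of `ℝ^n`, are `C^∞` there, and are used on the closure of `Ω`. -/
structure Admissible (k m : ℕ) (u v : Pt k → ℝ) : Prop where
  smooth_u : ContDiff ℝ ∞ u
  smooth_v : ContDiff ℝ ∞ v
  v_le_u : ∀ p ∈ Omega k, v p ≤ u p
  v_nonneg : ∀ p ∈ Omega k, 0 ≤ v p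
  eq_at_zero : ∀ y : EuclideanSpace ℝ (Fin k), ‖y‖ < 1 → u (0, y) = v (0, y)
  u_origin : u (0, 0) = 0
  v_origin : v (0, 0) = 0
  ut_origin : fderiv ℝ u (0, 0) (1, 0) = 0
  ut_pos : ∀ p ∈ Omega k, 0 < fderiv ℝ u p (1, 0)
  /-- the comparison condition `(C_m)`; here `t` runs over the closed interval -/
  comparison : ∀ (t s : ℝ) (y : EuclideanSpace ℝ (Fin k)), 0 ≤ t → t ≤ 1 → 0 < s → s < 1 →
    ‖y‖ < 1 → u (t, y) = v (s, y) → sigmaCurv m u (t, y) ≤ sigmaCurv m v (s, y)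
  /-- the gluing condition `(G)` -/
  gluing : ContDiffOn ℝ ∞ (glue u v) {p | |p.1| < 1 ∧ ‖p.2‖ < 1}

/-! ## The example -/

/-- `v (t, y) = |y|²` -/
noncomputable def vEx (k : ℕ) : Pt k → ℝ := fun p => ‖p.2‖ ^ 2

/-- `u (t, y) = |y|² + exp (-1/t)` for `t > 0` (and `|y|²` for `t ≤ 0`) -/
noncomputable def uEx (k : ℕ) : Pt k → ℝ := fun p => ‖p.2‖ ^ 2 + expNegInvGlue p.1

lemma hasDerivAt_glue (x : ℝ) :
    HasDerivAt expNegInvGlue (x⁻¹ ^ 2 * expNegInvGlue x) x := by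
  have h := expNegInvGlue.hasDerivAt_polynomial_eval_inv_mul (1 : Polynomial ℝ) x
  simpa using h

lemma hasDerivAt_glue' :
    HasDerivAt (fun x : ℝ => x⁻¹ ^ 2 * expNegInvGlue x) 0 0 := by
  have h := expNegInvGlue.hasDerivAt_polynomial_eval_inv_mul (Polynomial.X ^ 2 : Polynomial ℝ) 0
  simpa using h

lemma hasFDerivAt_vEx (k : ℕ) (p : Pt k) :
    HasFDerivAt (vEx k)
      ((2 • (innerSL ℝ p.2)).comp (ContinuousLinearMap.snd ℝ ℝ (EuclideanSpace ℝ (Fin k)))) p := by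
  have h1 : HasFDerivAt (fun q : Pt k => q.2)
      (ContinuousLinearMap.snd ℝ ℝ (EuclideanSpace ℝ (Fin k))) p := hasFDerivAt_snd
  exact h1.norm_sq

lemma fderiv_vEx (k : ℕ) (p e : Pt k) : fderiv ℝ (vEx k) p e = 2 * ⟪p.2, e.2⟫ := by
  rw [(hasFDerivAt_vEx k p).fderiv]
  simp

lemma hasFDerivAt_uEx (k : ℕ) (p : Pt k) :
    HasFDerivAt (uEx k)
      ((2 • (innerSL ℝ p.2)).comp (ContinuousLinearMap.snd ℝ ℝ (EuclideanSpace ℝ (Fin k)))
        + (p.1⁻¹ ^ 2 * expNegInvGlue p.1) •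
          (ContinuousLinearMap.fst ℝ ℝ (EuclideanSpace ℝ (Fin k)))) p := by
  have h1 : HasFDerivAt (fun q : Pt k => q.1)
      (ContinuousLinearMap.fst ℝ ℝ (EuclideanSpace ℝ (Fin k))) p := hasFDerivAt_fst
  exact (hasFDerivAt_vEx k p).add ((hasDerivAt_glue p.1).comp_hasFDerivAt p h1)

lemma fderiv_uEx (k : ℕ) (p e : Pt k) :
    fderiv ℝ (uEx k) p e = 2 * ⟪p.2, e.2⟫ + (p.1⁻¹ ^ 2 * expNegInvGlue p.1) * e.1 := by
  rw [(hasFDerivAt_uEx k p).fderiv]
  simp

lemma contDiff_vEx (k : ℕ) : ContDiff ℝ ∞ (vEx k) := (contDiff_snd).norm_sq ℝ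

lemma contDiff_uEx (k : ℕ) : ContDiff ℝ ∞ (uEx k) :=
  ((contDiff_snd).norm_sq ℝ).add (expNegInvGlue.contDiff.comp contDiff_fst)

/-- Along `t = 0` the first derivatives of `u` agree with those of `v` at any height `s`. -/
lemma gradVec_eq (k : ℕ) (s : ℝ) (y : EuclideanSpace ℝ (Fin k)) :
    gradVec (uEx k) (0, y) = gradVec (vEx k) (s, y) := by
  funext i
  simp [gradVec, fderiv_uEx, fderiv_vEx]

lemma hess_vEx (k : ℕ) (p e e' : Pt k) :
    fderiv ℝ (fun q => fderiv ℝ (vEx k) q e') p e = 2 * ⟪e.2, e'.2⟫ := by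
  have h : (fun q : Pt k => fderiv ℝ (vEx k) q e') = fun q => 2 * ⟪q.2, e'.2⟫ := by
    funext q; exact fderiv_vEx k q e'
  rw [h]
  have h1 : HasFDerivAt (fun q : Pt k => q.2)
      (ContinuousLinearMap.snd ℝ ℝ (EuclideanSpace ℝ (Fin k))) p := hasFDerivAt_snd
  have h2 := (h1.inner ℝ (hasFDerivAt_const e'.2 p)).const_mul 2
  rw [h2.fderiv]
  simp

lemma hess_uEx (k : ℕ) (y : EuclideanSpace ℝ (Fin k)) (e e' : Pt k) :
    fderiv ℝ (fun q => fderiv ℝ (uEx k) q e') (0, y) e = 2 * ⟪e.2, e'.2⟫ := by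
  have h : (fun q : Pt k => fderiv ℝ (uEx k) q e') =
      fun q => 2 * ⟪q.2, e'.2⟫ + (q.1⁻¹ ^ 2 * expNegInvGlue q.1) * e'.1 := by
    funext q; exact fderiv_uEx k q e'
  rw [h]
  have h1 : HasFDerivAt (fun q : Pt k => q.2)
      (ContinuousLinearMap.snd ℝ ℝ (EuclideanSpace ℝ (Fin k))) ((0 : ℝ), y) := hasFDerivAt_snd
  have h1' : HasFDerivAt (fun q : Pt k => q.1)
      (ContinuousLinearMap.fst ℝ ℝ (EuclideanSpace ℝ (Fin k))) ((0 : ℝ), y) := hasFDerivAt_fst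
  have h2 := (h1.inner ℝ (hasFDerivAt_const e'.2 ((0 : ℝ), y))).const_mul 2
  have h3 : HasFDerivAt (fun q : Pt k => q.1⁻¹ ^ 2 * expNegInvGlue q.1)
      ((0 : ℝ) • ContinuousLinearMap.fst ℝ ℝ (EuclideanSpace ℝ (Fin k))) ((0 : ℝ), y) :=
    HasDerivAt.comp_hasFDerivAt (h₂ := fun x : ℝ => x⁻¹ ^ 2 * expNegInvGlue x)
      (((0 : ℝ), y) : Pt k) hasDerivAt_glue' h1'
  have h4 := h2.fun_add (h3.mul_const e'.1)
  rw [h4.fderiv]
  simp

lemma hessMat_eq (k : ℕ) (s : ℝ) (y : EuclideanSpace ℝ (Fin k)) :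
    hessMat (uEx k) (0, y) = hessMat (vEx k) (s, y) := by
  ext i j
  simp only [hessMat, Matrix.of_apply]
  rw [hess_uEx, hess_vEx]

lemma sigmaCurv_eq (k m : ℕ) (s : ℝ) (y : EuclideanSpace ℝ (Fin k)) :
    sigmaCurv m (uEx k) (0, y) = sigmaCurv m (vEx k) (s, y) := by
  simp only [sigmaCurv, principalCurvatures, firstForm, secondForm, gradVec_eq k s y,
    hessMat_eq k s y]

lemma glue_eq (k : ℕ) : glue (uEx k) (vEx k) = fun p => ‖p.2‖ ^ 2 + expNegInvGlue (-p.1) := by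
  funext p
  by_cases h : 0 ≤ p.1
  · simp [glue, h, vEx]
  · simp [glue, h, uEx]

/-- The pair `(u, v)` of the example satisfies all the hypotheses, for every `m`. -/
theorem admissible_example (k m : ℕ) : Admissible k m (uEx k) (vEx k) where
  smooth_u := contDiff_uEx k
  smooth_v := contDiff_vEx k
  v_le_u := fun p _ => by
    have := expNegInvGlue.nonneg p.1
    simp only [uEx, vEx]; linarith
  v_nonneg := fun p _ => by simp only [vEx]; positivity
  eq_at_zero := fun y _ => by simp [uEx, vEx]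
  u_origin := by simp [uEx]
  v_origin := by simp [vEx]
  ut_origin := by rw [fderiv_uEx]; simp
  ut_pos := fun p hp => by
    have h0 : 0 < p.1 := hp.2.1
    have h1 := expNegInvGlue.pos_of_pos h0
    rw [fderiv_uEx]
    simp only [inner_zero_right, mul_zero, zero_add, mul_one]
    positivity
  comparison := fun t s y ht0 _ _ _ _ h => by
    have h1 : expNegInvGlue t = 0 := by
      simp only [uEx, vEx] at h; linarith
    have h2 : t ≤ 0 := expNegInvGlue.zero_iff_nonpos.1 h1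
    have h3 : t = 0 := le_antisymm h2 ht0
    subst h3
    exact (sigmaCurv_eq k m s y).le
  gluing := by
    rw [glue_eq]
    exact (((contDiff_snd).norm_sq ℝ).add
      (expNegInvGlue.contDiff.comp contDiff_fst.neg)).contDiffOn

/-! ## The second example, for `n = 2` -/

open Pool.Agent.H19 in
/-- `u (t, y) = y² + t e (y² - t²) + e (y²)^50 e (t² - y²) + 200 e (2 t)` -/
noncomputable def uTwo : Pt 1 → ℝ := HopfCalc.F 1 1

open Pool.Agent.H19 in
/-- `v (t, y) = y² - t e (y² - t²) + e (y²)^50 e (t² - y²)` -/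
noncomputable def vTwo : Pt 1 → ℝ := HopfCalc.F (-1) 0

open Pool.Agent.H19

lemma gradVec_F (σ τ : ℝ) (p : Pt 1) :
    gradVec (HopfCalc.F σ τ) p = ![HopfCalc.Ft σ τ p, HopfCalc.Fy σ p] := by
  funext i
  fin_cases i
  · exact (HopfCalc.hgF σ τ p).fderiv_t
  · exact (HopfCalc.hgF σ τ p).fderiv_y

lemma fderiv_F_zero (σ τ : ℝ) : (fun q : Pt 1 => fderiv ℝ (HopfCalc.F σ τ) q (coordVec 1 0)) =
    HopfCalc.Ft σ τ := funext fun q => (HopfCalc.hgF σ τ q).fderiv_t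

lemma fderiv_F_one (σ τ : ℝ) : (fun q : Pt 1 => fderiv ℝ (HopfCalc.F σ τ) q (coordVec 1 1)) =
    HopfCalc.Fy σ := funext fun q => (HopfCalc.hgF σ τ q).fderiv_y

lemma hessMat_F (σ τ : ℝ) (p : Pt 1) :
    hessMat (HopfCalc.F σ τ) p = !![HopfCalc.Ftt σ τ p, HopfCalc.Fty σ p;
      HopfCalc.Fty σ p, HopfCalc.Fyy σ p] := by
  ext i j
  fin_cases i <;> fin_cases j
  · change fderiv ℝ (fun q : Pt 1 => fderiv ℝ (HopfCalc.F σ τ) q (coordVec 1 0)) p
      (coordVec 1 0) = _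
    rw [fderiv_F_zero]
    exact (HopfCalc.hgFt σ τ p).fderiv_t
  · change fderiv ℝ (fun q : Pt 1 => fderiv ℝ (HopfCalc.F σ τ) q (coordVec 1 1)) p
      (coordVec 1 0) = _
    rw [fderiv_F_one]
    exact (HopfCalc.hgFy σ p).fderiv_t
  · change fderiv ℝ (fun q : Pt 1 => fderiv ℝ (HopfCalc.F σ τ) q (coordVec 1 0)) p
      (coordVec 1 1) = _
    rw [fderiv_F_zero]
    exact (HopfCalc.hgFt σ τ p).fderiv_y
  · change fderiv ℝ (fun q : Pt 1 => fderiv ℝ (HopfCalc.F σ τ) q (coordVec 1 1)) p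
      (coordVec 1 1) = _
    rw [fderiv_F_one]
    exact (HopfCalc.hgFy σ p).fderiv_y

lemma sigmaCurv_F (m : ℕ) (σ τ : ℝ) (p : Pt 1) :
    sigmaCurv m (HopfCalc.F σ τ) p =
      (HopfMatrix.shape (HopfCalc.Ft σ τ p) (HopfCalc.Fy σ p) (HopfCalc.Ftt σ τ p)
        (HopfCalc.Fty σ p) (HopfCalc.Fyy σ p)).charpoly.roots.esymm m := by
  unfold sigmaCurv principalCurvatures firstForm secondForm HopfMatrix.shape
  rw [gradVec_F, hessMat_F]

lemma norm_one_dim (y : EuclideanSpace ℝ (Fin 1)) : ‖y‖ ^ 2 = (y 0) ^ 2 := by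
  rw [EuclideanSpace.norm_sq_eq]
  simp

lemma sq_lt_one (y : EuclideanSpace ℝ (Fin 1)) (hy : ‖y‖ < 1) : (y 0) ^ 2 < 1 := by
  rw [← norm_one_dim]
  exact pow_lt_one₀ (norm_nonneg _) hy (by norm_num)

/-- The comparison condition for the second example, `m = 1, 2`. -/
lemma comparison_two (m : ℕ) (hm1 : 1 ≤ m) (hm2 : m ≤ 2) (t s : ℝ)
    (y : EuclideanSpace ℝ (Fin 1)) (ht0 : 0 ≤ t) (ht1 : t ≤ 1) (hs0 : 0 < s) (hs1 : s < 1)
    (hy : ‖y‖ < 1) (h : uTwo (t, y) = vTwo (s, y)) :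
    sigmaCurv m uTwo (t, y) ≤ sigmaCurv m vTwo (s, y) := by
  have hY1 := sq_lt_one y hy
  unfold uTwo vTwo at *
  rw [sigmaCurv_F, sigmaCurv_F]
  rcases HopfCalc.coincidence y ht0 hs0 h with ⟨hy0, rfl⟩ | ⟨hY0, hsy, hu⟩
  · -- both sides are computed from the same numbers
    have z0 : HopfCalc.e 0 = 0 := HopfCalc.e_zero le_rfl
    have z1 : HopfCalc.e1 0 = 0 := HopfCalc.e1_zero le_rfl
    have z2 : HopfCalc.e2 0 = 0 := HopfCalc.e2_zero le_rfl
    have w0 : HopfCalc.e (-s ^ 2) = 0 := HopfCalc.e_zero (by nlinarith [sq_nonneg s])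
    have w1 : HopfCalc.e1 (-s ^ 2) = 0 := HopfCalc.e1_zero (by nlinarith [sq_nonneg s])
    have w2 : HopfCalc.e2 (-s ^ 2) = 0 := HopfCalc.e2_zero (by nlinarith [sq_nonneg s])
    have a1 : HopfCalc.Ft 1 1 ((0 : ℝ), y) = HopfCalc.Ft (-1) 0 (s, y) := by
      simp [HopfCalc.Ft, hy0, z0, z1, w0, w1]
    have a2 : HopfCalc.Fy 1 ((0 : ℝ), y) = HopfCalc.Fy (-1) (s, y) := by
      simp [HopfCalc.Fy, hy0]
    have a3 : HopfCalc.Ftt 1 1 ((0 : ℝ), y) = HopfCalc.Ftt (-1) 0 (s, y) := by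
      simp [HopfCalc.Ftt, hy0, z0, z1, z2, w1, w2]
    have a4 : HopfCalc.Fty 1 ((0 : ℝ), y) = HopfCalc.Fty (-1) (s, y) := by
      simp [HopfCalc.Fty, hy0]
    have a5 : HopfCalc.Fyy 1 ((0 : ℝ), y) = HopfCalc.Fyy (-1) (s, y) := by
      simp [HopfCalc.Fyy, hy0, z0, z1, w1]
    rw [a1, a2, a3, a4, a5]
  · have hc0 : 0 < HopfCalc.e ((y 0) ^ 2) := expNegInvGlue.pos_of_pos hY0
    have hc := HopfCalc.c_half hY1
    have hδ := HopfCalc.c48 hc0 hc
    have hδ0 : 0 ≤ 300000 * HopfCalc.e ((y 0) ^ 2) ^ 48 := by positivity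
    have U := HopfCalc.uside y rfl ht0 ht1 hY0 hY1 hu
    have V := HopfCalc.vside y rfl hs0.le hs1.le hY0 hY1 hsy
    rcases (show m = 1 ∨ m = 2 by omega) with rfl | rfl
    · rw [HopfMatrix.shape_esymm_one, HopfMatrix.shape_esymm_one]
      exact (HopfCalc.compare_one hc0 hc hδ0 hδ hY1.le U V).le
    · rw [HopfMatrix.shape_esymm_two, HopfMatrix.shape_esymm_two]
      exact (HopfCalc.compare_two hc0 hc hδ0 hδ U V).le

lemma glue_two : glue uTwo vTwo = fun p : Pt 1 =>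
    p.2 0 ^ 2 + (-1) * (p.1 * HopfCalc.e (p.2 0 ^ 2 - p.1 ^ 2)) +
    HopfCalc.e (p.2 0 ^ 2) ^ 50 * HopfCalc.e (p.1 ^ 2 - p.2 0 ^ 2) +
    1 * (200 * HopfCalc.e ((-2) * p.1)) := by
  funext p
  by_cases h : 0 ≤ p.1
  · have z : HopfCalc.e ((-2) * p.1) = 0 := HopfCalc.e_zero (by linarith)
    simp only [glue, h, if_true, vTwo, HopfCalc.F, z]
    ring
  · have e1 : (-p.1) ^ 2 = p.1 ^ 2 := by ring
    have e2 : 2 * (-p.1) = (-2) * p.1 := by ring
    simp only [glue, h, if_false, uTwo, HopfCalc.F, e1, e2]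
    ring

theorem admissible_two (m : ℕ) (hm1 : 1 ≤ m) (hm2 : m ≤ 2) : Admissible 1 m uTwo vTwo where
  smooth_u := HopfCalc.contDiff_G 1 1 2
  smooth_v := HopfCalc.contDiff_G (-1) 0 2
  v_le_u := fun p hp => (HopfCalc.F_lt p.2 hp.2.1).le
  v_nonneg := fun p hp => HopfCalc.F_v_nonneg p.2 hp.2.2.le
  eq_at_zero := fun y _ => by
    have h := HopfCalc.F_diff 0 y
    have z : HopfCalc.e (2 * 0) = 0 := HopfCalc.e_zero (by norm_num)
    rw [z] at h
    unfold uTwo vTwo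
    linarith
  u_origin := by
    have z : HopfCalc.e 0 = 0 := HopfCalc.e_zero le_rfl
    simp [uTwo, HopfCalc.F, z]
  v_origin := by
    have z : HopfCalc.e 0 = 0 := HopfCalc.e_zero le_rfl
    simp [vTwo, HopfCalc.F, z]
  ut_origin := by
    have z : HopfCalc.e 0 = 0 := HopfCalc.e_zero le_rfl
    have z1 : HopfCalc.e1 0 = 0 := HopfCalc.e1_zero le_rfl
    unfold uTwo
    rw [(HopfCalc.hgF 1 1 _).fderiv_t]
    simp [HopfCalc.Ft, z, z1]
  ut_pos := fun p hp => by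
    unfold uTwo
    rw [(HopfCalc.hgF 1 1 _).fderiv_t]
    exact HopfCalc.Ft_pos p.2 hp.2.1 hp.2.2
  comparison := fun t s y ht0 ht1 hs0 hs1 hy h =>
    comparison_two m hm1 hm2 t s y ht0 ht1 hs0 hs1 hy h
  gluing := by
    rw [glue_two]
    exact (HopfCalc.contDiff_G (-1) 1 (-2)).contDiffOn

/-- In every neighbourhood of the origin: `u ≠ v`, `v ≠ 0`, and two points of `Ω` with
`u (t, y) = v (s, y)`. -/
theorem near_two (W : Set (Pt 1)) (hW : W ∈ 𝓝 (((0 : ℝ), 0) : Pt 1)) :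
    (∃ p ∈ closure (Omega 1) ∩ W, uTwo p ≠ vTwo p) ∧ (∃ p ∈ closure (Omega 1) ∩ W, vTwo p ≠ 0) ∧
    ∃ (t s : ℝ) (y : EuclideanSpace ℝ (Fin 1)), (t, y) ∈ Omega 1 ∩ W ∧ (s, y) ∈ Omega 1 ∩ W ∧
      uTwo (t, y) = vTwo (s, y) := by
  obtain ⟨ε, hε, hball⟩ := Metric.mem_nhds_iff.1 hW
  obtain ⟨δ, hδ0, hδ1, hδε⟩ : ∃ δ : ℝ, 0 < δ ∧ 2 * δ < 1 ∧ 2 * δ < ε :=
    ⟨min (1 / 4) (ε / 4), by positivity, by
      have := min_le_left (1 / 4 : ℝ) (ε / 4); linarith, by
      have := min_le_right (1 / 4 : ℝ) (ε / 4); linarith⟩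
  set y : EuclideanSpace ℝ (Fin 1) := EuclideanSpace.single 0 δ with hy
  have hyn : ‖y‖ = δ := by simp [hy, abs_of_pos hδ0]
  have hy0 : y 0 = δ := by simp [hy]
  have hmem : ∀ t : ℝ, 0 < t → t ≤ 2 * δ → ((t, y) : Pt 1) ∈ Omega 1 ∩ W := by
    intro t ht0 ht1
    refine ⟨⟨?_, ht0, by simp only; linarith⟩, hball ?_⟩
    · change ‖y‖ < 1
      rw [hyn]; linarith
    · rw [Metric.mem_ball, dist_eq_norm, Prod.mk_sub_mk, Prod.norm_mk]
      simp only [sub_zero]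
      rw [hyn, Real.norm_eq_abs, abs_of_pos ht0, max_lt_iff]
      constructor <;> linarith
  have hmemc : ∀ t : ℝ, 0 < t → t ≤ 2 * δ → ((t, y) : Pt 1) ∈ closure (Omega 1) ∩ W :=
    fun t h1 h2 => ⟨subset_closure (hmem t h1 h2).1, (hmem t h1 h2).2⟩
  refine ⟨⟨(δ, y), hmemc δ hδ0 (by linarith), (HopfCalc.F_lt y hδ0).ne'⟩,
    ⟨(δ, y), hmemc δ hδ0 (by linarith), ?_⟩, ?_⟩
  · -- `v (δ, δ) = δ²`
    have z : HopfCalc.e (δ ^ 2 - δ ^ 2) = 0 := HopfCalc.e_zero (by linarith)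
    unfold vTwo
    rw [HopfCalc.F_v δ δ y hy0, z]
    have : 0 < δ ^ 2 := by positivity
    intro h
    linarith
  · -- the intermediate value theorem on `[0, 2 δ]`
    have hval : uTwo (0, y) < vTwo (2 * δ, y) := by
      unfold uTwo vTwo
      rw [HopfCalc.F_u 0 δ y hy0, HopfCalc.F_v (2 * δ) δ y hy0]
      have z1 : HopfCalc.e ((0 : ℝ) ^ 2 - δ ^ 2) = 0 :=
        HopfCalc.e_zero (by nlinarith [sq_nonneg δ])
      have z2 : HopfCalc.e (2 * 0) = 0 := HopfCalc.e_zero (by norm_num)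
      have z3 : HopfCalc.e (δ ^ 2 - (2 * δ) ^ 2) = 0 :=
        HopfCalc.e_zero (by nlinarith [sq_nonneg δ])
      have q1 : 0 < HopfCalc.e (δ ^ 2) := expNegInvGlue.pos_of_pos (by positivity)
      have q2 : 0 < HopfCalc.e ((2 * δ) ^ 2 - δ ^ 2) :=
        expNegInvGlue.pos_of_pos (by nlinarith)
      have q3 : 0 < HopfCalc.e (δ ^ 2) ^ 50 * HopfCalc.e ((2 * δ) ^ 2 - δ ^ 2) :=
        mul_pos (pow_pos q1 _) q2
      rw [z1, z2, z3]
      linarith
    have hcont : ContinuousOn (fun t : ℝ => uTwo (t, y)) (Set.Icc 0 (2 * δ)) := by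
      have h1 : Continuous uTwo := (HopfCalc.contDiff_G 1 1 2).continuous
      exact (h1.comp (continuous_id.prodMk continuous_const)).continuousOn
    have hivt := intermediate_value_Icc (by linarith : (0 : ℝ) ≤ 2 * δ) hcont
    obtain ⟨t, ht, hte⟩ := hivt ⟨hval.le, (HopfCalc.F_lt y (by linarith : 0 < 2 * δ)).le⟩
    have ht0 : 0 < t := by
      rcases ht.1.eq_or_lt with h | h
      · exfalso
        rw [← h] at hte
        simp only at hte
        linarith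
      · exact h
    exact ⟨t, 2 * δ, y, hmem t ht0 ht.2, hmem (2 * δ) (by linarith) le_rfl, hte⟩

/-- **Negative answer for every dimension and every curvature function.**
For every `n = k + 1 ≥ 2` and every `1 ≤ m ≤ n` there are `u, v` satisfying all the hypotheses of
the question (with the comparison condition for `σ_m` and the smooth gluing condition) such that on
every neighbourhood of the origin in the closure of `Ω` both `u ≢ v` and `v ≢ 0`.
If `n = 2` then `u, v` can be chosen such that moreover the comparison condition is tested inside `Ω`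
near the origin: every neighbourhood of the origin contains points `(t, y)`, `(s, y)` of `Ω` with
`u (t, y) = v (s, y)`. -/
theorem result : ∀ k m : ℕ, 2 ≤ k + 1 → 1 ≤ m → m ≤ k + 1 →
    ∃ u v : Pt k → ℝ, Admissible k m u v ∧
      (∀ W ∈ 𝓝 (((0 : ℝ), 0) : Pt k),
        (∃ p ∈ closure (Omega k) ∩ W, u p ≠ v p) ∧ (∃ p ∈ closure (Omega k) ∩ W, v p ≠ 0)) ∧
      (k + 1 = 2 → ∀ W ∈ 𝓝 (((0 : ℝ), 0) : Pt k),
        ∃ (t s : ℝ) (y : EuclideanSpace ℝ (Fin k)),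
          (t, y) ∈ Omega k ∩ W ∧ (s, y) ∈ Omega k ∩ W ∧ u (t, y) = v (s, y)) := by
  intro k m hk hm1 hm2
  by_cases hk2 : k = 1
  · subst hk2
    exact ⟨uTwo, vTwo, admissible_two m hm1 hm2,
      fun W hW => ⟨(near_two W hW).1, (near_two W hW).2.1⟩, fun _ W hW => (near_two W hW).2.2⟩
  refine ⟨uEx k, vEx k, admissible_example k m, ?_, fun h => absurd (by omega) hk2⟩
  intro W hW
  obtain ⟨ε, hε, hball⟩ := Metric.mem_nhds_iff.1 hW
  have hk1 : 0 < k := by omega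
  -- a small positive number
  obtain ⟨δ, hδ0, hδ1, hδε⟩ : ∃ δ : ℝ, 0 < δ ∧ δ < 1 ∧ δ < ε :=
    ⟨min (1 / 2) (ε / 2), by positivity, by
      have := min_le_left (1 / 2 : ℝ) (ε / 2); linarith, by
      have := min_le_right (1 / 2 : ℝ) (ε / 2); linarith⟩
  set e : EuclideanSpace ℝ (Fin k) := EuclideanSpace.single ⟨0, hk1⟩ δ with he
  have hen : ‖e‖ = δ := by simp [he, abs_of_pos hδ0]
  -- the point `(δ, δ e₁)` lies in `Ω ∩ W`
  have hmem : ((δ, e) : Pt k) ∈ closure (Omega k) ∩ W := by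
    refine ⟨subset_closure ⟨?_, hδ0, hδ1⟩, hball ?_⟩
    · change ‖e‖ < 1
      rw [hen]; exact hδ1
    · rw [Metric.mem_ball, dist_eq_norm, Prod.mk_sub_mk, Prod.norm_mk]
      simp only [sub_zero]
      rw [hen, Real.norm_eq_abs, abs_of_pos hδ0, max_self]
      exact hδε
  refine ⟨⟨(δ, e), hmem, ?_⟩, ⟨(δ, e), hmem, ?_⟩⟩
  · have h1 := expNegInvGlue.pos_of_pos hδ0
    simp only [uEx, vEx]
    intro h
    linarith
  · simp only [vEx, hen]
    positivity

end Pool.Agent.Results.MP_4ba699_an.HopfVariantFails
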